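import Pool.Agent.Helper11.PV.St2

/-!
# Project PV (MP_e12aa9_pr), module BAI: generic `p`
-/

set_option autoImplicit false

namespace Pool.Agent.Helper74.PV

open Finset Filter MeasureTheory Pool.Agent.Helper82.CN Pool.Agent.Helper11.PV

theorem cbw (b : Bool) : Continuous fun p : ℝ => bw p b := by
  cases b with
  | true =>
    have h : (fun p : ℝ => bw p true) = fun p => p := by
      funext p
      simp [bw]
    rw [h]
    exact continuous_id
  | false =>
    have h : (fun p : ℝ => bw p false) = fun p => 1 - p := by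
      funext p
      simp [bw]
    rw [h]
    exact continuous_const.sub continuous_id

theorem cEE {ι : Type} [Fintype ι] [DecidableEq ι] (F : ℝ → (ι → Bool) → ℝ)
    (hF : ∀ ω, Continuous fun p => F p ω) : Continuous fun p : ℝ => EE p (F p) := by
  unfold EE
  exact continuous_finsetSum _ fun ω _ => (continuous_finsetProd _ fun i _ => cbw (ω i)).mul (hF ω)

theorem cvn (n : ℕ) : Continuous fun p : ℝ => vn p n := by
  have h1 : Continuous fun p : ℝ => fn p n := by
    unfold fn
    exact cEE (fun _ ω => ch (gr ω)) fun ω => continuous_const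
  unfold vn
  exact cEE (fun p ω => (ch (gr ω) - fn p n) ^ 2) fun ω => (continuous_const.sub h1).pow 2

theorem chh (N : ℕ) : Continuous (hh N) := by
  have h1 : hh N = fun p => (∑ n ∈ Icc 2 N, vn p n * (Real.log n ^ 3 / n)) / N := rfl
  rw [h1]
  exact (continuous_finsetSum _ fun n _ => (cvn n).mul continuous_const).div_const _

theorem tBAI (hLCH : StLCH) : Pool.Agent.Helper11.PV.StBAI := by
  intro p₀ p₁ h0 h01 h1
  obtain ⟨C₀, hC₀, hL⟩ := hLCH p₀ p₁ h0 h01 h1
  refine ⟨2 * C₀, by positivity, ?_⟩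
  let U : ℕ → Set ℝ := fun N₁ => {p | p < p₀} ∪ {p | p₁ < p} ∪ ⋃ N : ℕ, ⋃ _ : N₁ ≤ N, {p | hh N p < 2 * C₀}
  have hopen : ∀ N₁, IsOpen (U N₁) := by
    intro N₁
    refine IsOpen.union (IsOpen.union (isOpen_lt continuous_id continuous_const)
      (isOpen_lt continuous_const continuous_id)) ?_
    exact isOpen_iUnion fun N => isOpen_iUnion fun _ => isOpen_lt (chh N) continuous_const
  have hdense : ∀ N₁, Dense (U N₁) := by
    intro N₁
    rw [dense_iff_inter_open]
    rintro O hO ⟨x, hx⟩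
    by_contra hcon
    have hno : ∀ y ∈ O, y ∉ U N₁ := fun y hy hyU => hcon ⟨y, hy, hyU⟩
    have hall : ∀ y ∈ O, p₀ ≤ y ∧ y ≤ p₁ ∧ ∀ N : ℕ, N₁ ≤ N → 2 * C₀ ≤ hh N y := by
      intro y hy
      have h2 := hno y hy
      refine ⟨?_, ?_, ?_⟩
      · by_contra h3
        exact h2 (Or.inl (Or.inl (not_le.1 h3)))
      · by_contra h3
        exact h2 (Or.inl (Or.inr (not_le.1 h3)))
      · intro N hN
        by_contra h3
        exact h2 (Or.inr (Set.mem_iUnion.2 ⟨N, Set.mem_iUnion.2 ⟨hN, not_le.1 h3⟩⟩))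
    obtain ⟨ε, hε, hball⟩ := Metric.isOpen_iff.1 hO x hx
    have hsub : ∀ y, x ≤ y → y ≤ x + ε / 2 → y ∈ O := by
      intro y hy1 hy2
      apply hball
      rw [Metric.mem_ball, Real.dist_eq, abs_of_nonneg (by linarith)]
      linarith
    have hab : x < x + ε / 2 := by linarith
    have ha := hall x hx
    have hb := hall (x + ε / 2) (hsub _ hab.le le_rfl)
    obtain ⟨N₀, hN₀⟩ := hL x (x + ε / 2) ha.1 hab hb.2.1
    have h2 := hN₀ (max N₀ N₁) (le_max_left _ _)
    have h3 : ∫ _ in x..(x + ε / 2), (2 * C₀) ≤ ∫ p in x..(x + ε / 2), hh (max N₀ N₁) p := by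
      apply intervalIntegral.integral_mono_on hab.le
      · exact (continuous_const).intervalIntegrable _ _
      · exact (chh _).intervalIntegrable _ _
      · intro y hy
        exact (hall y (hsub y hy.1 hy.2)).2.2 _ (le_max_right _ _)
    rw [intervalIntegral.integral_const, smul_eq_mul] at h3
    have h4 : (x + ε / 2 - x) * (2 * C₀) ≤ C₀ * (x + ε / 2 - x) := h3.trans h2
    have h5 : 0 < C₀ * (x + ε / 2 - x) := by
      apply mul_pos hC₀
      linarith
    linarith
  have hres : (⋂ N₁, U N₁) ∈ residual ℝ :=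
    countable_iInter_mem.2 fun N₁ => residual_of_dense_open (hopen N₁) (hdense N₁)
  filter_upwards [hres] with p hp hp0 hp1
  rw [frequently_atTop]
  intro N₁
  rcases Set.mem_iInter.1 hp N₁ with (h2 | h2) | h2
  · exact absurd (show p < p₀ from h2) (not_lt.2 hp0)
  · exact absurd (show p₁ < p from h2) (not_lt.2 hp1)
  · obtain ⟨N, hN⟩ := Set.mem_iUnion.1 h2
    obtain ⟨hN1, hN2⟩ := Set.mem_iUnion.1 hN
    exact ⟨N, hN1, (show hh N p < 2 * C₀ from hN2).le⟩

end Pool.Agent.Helper74.PV
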